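import Pool.Agent.Q179.MO.Main

/-!
# The partial sums of an MO function are never `O(1 / x)`, also in logarithmic mean square

Let `f` be an MO function and `S_f(x) = ∑_{n ≤ x} f(n)`. The starting results say that `limsup x |S_f(x)| ≥ 1 / 2`
(`OmegaInverse`), that `∑_p |1 + Re (p f(p))| / p` converges if `S_f(x) = O(1 / x)` (`NearMoebius`), and that
`S_f(x) = Ω(x ^ (-1 + δ))` for some `δ > 0` if `f` is completely multiplicative (`CompletelyMultiplicative`). We show
that `x |S_f(x)|` is unbounded for EVERY MO function, and that the logarithmic mean square of `x |S_f(x)|` is unbounded for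
every MO function with `f(n) = O(1 / n)`.

Proof. Let `f(n) = O(1 / n)` and `∑_{n ≤ X} n |S_f(n)|² ≤ D log X` for large `X` (this is so if `S_f(x) = O(1 / x)`). Put
`g(n) = n f(n)`; summation by parts shows that the sums of `g` over the windows `(n, n + H]` have a logarithmic mean square
bounded by `6 D`, for each `H`. On the other hand `F(σ) = ∑ f(n) n ^ (-σ)` is `O(σ)`, and for
`λ_P = λ` on the integers without prime factors up to `P`, zero elsewhere, `P` large, the product of `F(σ)` and
`∑ λ_P(n) f(n) n ^ (-σ)` is an Euler product which converges absolutely and is bounded away from `0` for `σ → 0` (the local factors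
at large primes are `1 + O(1 / p²)`, those at small primes are the ones of `F`, with nonzero limits). So the second series is at
least `δ / σ`, and `|∑_{n ≤ X} λ_P(n) f(n)| > (δ / 4) log X` for arbitrarily large `X`. Now expand
`∑_{n ≤ X} (∑_{j ≤ H} λ_P(n + j)) (∑_{h ≤ H} g(n + h)) / n`. By the theorem on the pairs of `λ` times a periodic function and an
ARBITRARY bounded multiplicative function (starting result `UniformPair` of MP_f3f922_nt, after Tao and Matomäki–Radziwiłł; `g` is a
function with values in the disc times a nearly periodic factor) the terms with `j ≠ h` are `o(log X)`, those with `j = h` are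
`H ∑_{n ≤ X} λ_P(n) f(n) + O(1)`; but by the inequality of Cauchy and Schwarz the whole sum is at most `√(6 D H) log X`, up to
`o(log X)`. For large `H` this is a contradiction.
-/

set_option autoImplicit false

namespace Pool.Agent.Results.MP_a187e6_nt.NeverBigOOneOverX

open Filter Topology

/-- The partial sum `S_f(x) = ∑_{1 ≤ n ≤ x} f(n)`. -/
noncomputable def S (f : ℕ → ℂ) (x : ℝ) : ℂ := ∑ n ∈ Finset.Icc 1 ⌊x⌋₊, f n

/-- `f` is an MO function: it is multiplicative, the series `∑ f(n)` converges to `0`, and for each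
prime `p` the series `∑_k f(p ^ k)` converges to a nonzero value. -/
structure IsMO (f : ℕ → ℂ) : Prop where
  one : f 1 = 1
  mul : ∀ m n : ℕ, 0 < m → 0 < n → Nat.Coprime m n → f (m * n) = f m * f n
  sum_zero : Tendsto (fun N : ℕ => ∑ n ∈ Finset.Icc 1 N, f n) atTop (𝓝 0)
  local_ne_zero : ∀ p : ℕ, p.Prime → ∃ c : ℂ, c ≠ 0 ∧
    Tendsto (fun K : ℕ => ∑ k ∈ Finset.range K, f (p ^ k)) atTop (𝓝 c)

/-- Let `f` be an MO function.
(1) `limsup_{x → ∞} x |S_f(x)| = ∞`: for every `C` there are arbitrarily large `x` with `|S_f(x)| > C / x`.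
(2) If `|f(n)| ≤ B / n` for all `n`, then the logarithmic mean square of `x S_f(x)` is unbounded: for every `D` there are
arbitrarily large `X` with `∑_{n ≤ X} n |S_f(n)|² > D log X`. -/
theorem result (f : ℕ → ℂ) (hf : IsMO f) :
    (∀ C : ℝ, ∃ᶠ x : ℝ in atTop, C / x < ‖S f x‖) ∧
    (∀ B : ℝ, (∀ n : ℕ, 1 ≤ n → ‖f n‖ ≤ B / n) → ∀ D : ℝ, ∃ᶠ X : ℕ in atTop,
      D * Real.log X < ∑ n ∈ Finset.Icc 1 X, n * ‖S f n‖ ^ 2) := by
  have hf' : Pool.Agent.TH127.MO.IsMO f := ⟨hf.one, hf.mul, hf.sum_zero, hf.local_ne_zero⟩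
  have hS : ∀ n : ℕ, S f (n : ℝ) = Pool.Agent.TH127.MO.s f n := by
    intro n
    unfold S Pool.Agent.TH127.MO.s
    rw [Nat.floor_natCast]
  constructor
  · intro C hcon
    simp only [not_lt] at hcon
    obtain ⟨x₀, hx₀⟩ := eventually_atTop.1 hcon
    obtain ⟨N, hN⟩ := exists_nat_ge x₀
    set A : ℝ := ∑ m ∈ Finset.range (N + 1), (m : ℝ) * ‖Pool.Agent.TH127.MO.s f m‖ with hA
    have hnn : ∀ m ∈ Finset.range (N + 1), 0 ≤ (m : ℝ) * ‖Pool.Agent.TH127.MO.s f m‖ := fun m _ => by positivity
    refine Pool.Agent.Q179.MO.no_MO hf' (K := |C| + A) fun n hn => ?_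
    have hn0 : (0 : ℝ) < n := by exact_mod_cast hn
    rw [le_div_iff₀ hn0]
    rcases le_total (n : ℝ) N with h | h
    · have h0 : n ≤ N := by exact_mod_cast h
      have h1 : n ∈ Finset.range (N + 1) := Finset.mem_range.2 (by omega)
      have h2 := Finset.single_le_sum hnn h1
      have h3 := abs_nonneg C
      rw [mul_comm]
      linarith
    · have h1 := hx₀ n (hN.trans h)
      rw [le_div_iff₀ hn0] at h1
      rw [hS] at h1
      have h3 : 0 ≤ A := Finset.sum_nonneg hnn
      have h4 := le_abs_self C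
      linarith
  · intro B hB D hcon
    simp only [not_lt] at hcon
    obtain ⟨N, hN⟩ := eventually_atTop.1 hcon
    set A : ℝ := ∑ n ∈ Finset.Icc 1 N, (n : ℝ) * ‖S f n‖ ^ 2 with hA
    have hA0 : 0 ≤ A := Finset.sum_nonneg fun n _ => by positivity
    refine Pool.Agent.Q179.MO.no_MO2 hf' hB (D := |D| + A) (by positivity) fun X hX => ?_
    have hlog : 0 ≤ Real.log X := Real.log_natCast_nonneg _
    have e1 : ∑ n ∈ Finset.Icc 1 X, Pool.Agent.Q179.MO.v f n = ∑ n ∈ Finset.Icc 1 X, (n : ℝ) * ‖S f n‖ ^ 2 := by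
      refine Finset.sum_congr rfl fun n _ => ?_
      rw [hS]
      rfl
    rw [e1]
    rcases le_total N X with h | h
    · have h1 := hN X h
      have h2 : D * Real.log X ≤ |D| * Real.log X := mul_le_mul_of_nonneg_right (le_abs_self D) hlog
      nlinarith [abs_nonneg D]
    · have h1 : ∑ n ∈ Finset.Icc 1 X, (n : ℝ) * ‖S f n‖ ^ 2 ≤ A :=
        Finset.sum_le_sum_of_subset_of_nonneg (Finset.Icc_subset_Icc_right h) (fun n _ _ => by positivity)
      nlinarith [abs_nonneg D, mul_nonneg (abs_nonneg D) hlog, mul_nonneg hA0 hlog]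

end Pool.Agent.Results.MP_a187e6_nt.NeverBigOOneOverX
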